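import Pool.Agent.H41.SS.Targets

/-!
# ss_modules, row NUP
-/

namespace Pool.Agent.H6.SSM

open Finset Pool.Agent.H97.RK Pool.Agent.H97.RL Pool.Agent.H41.SS

private lemma log_le_sqrt {x : ℝ} (hx : 1000000 ≤ x) : Real.log x ≤ x / 500 := by
  have h0 : 0 < x := by linarith
  have hs : 0 < Real.sqrt x := Real.sqrt_pos.2 h0
  have hss : Real.sqrt x * Real.sqrt x = x := Real.mul_self_sqrt h0.le
  have h1 : Real.log x = 2 * Real.log (Real.sqrt x) := by
    rw [Real.log_sqrt h0.le]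
    ring
  have h2 := Real.log_le_sub_one_of_pos hs
  have h3 : 1000 ≤ Real.sqrt x := by
    apply Real.le_sqrt_of_sq_le
    linarith [show (1000 : ℝ) ^ 2 = 1000000 by norm_num]
  rw [h1]
  have h4 : 1000 * Real.sqrt x ≤ Real.sqrt x * Real.sqrt x :=
    mul_le_mul_of_nonneg_right h3 hs.le
  rw [hss] at h4
  linarith

private lemma powlow (k : ℕ) (δ L : ℝ) (hkp : (0 : ℝ) < k) (hδ0 : 0 ≤ δ) (hL0 : 0 ≤ L)
    (hδ1 : k * δ ≤ 0.3 * L) (hLk : L ≤ 0.7 * k) : Real.exp (-(L / 2)) ≤ (1 - δ) ^ k := by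
  have hδ2 : δ ≤ 0.21 := by
    have h5 : k * δ ≤ k * 0.21 := by linarith
    exact le_of_mul_le_mul_left h5 hkp
  have h11 : -(δ / (1 - δ)) ≤ Real.log (1 - δ) := by
    have := Real.one_sub_inv_le_log_of_pos (show (0 : ℝ) < 1 - δ by linarith)
    have h12 : 1 - (1 - δ)⁻¹ = -(δ / (1 - δ)) := by
      have : (1 - δ) ≠ 0 := by linarith
      field_simp
      ring
    linarith
  have h13 : δ / (1 - δ) ≤ δ * 1.3 := by
    rw [div_le_iff₀ (by linarith)]
    have h : δ * δ ≤ δ * 0.21 := mul_le_mul_of_nonneg_left hδ2 hδ0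
    nlinarith
  have h15 : k * (δ * 1.3) ≤ L / 2 := by linarith
  have h16 : k * (δ / (1 - δ)) ≤ k * (δ * 1.3) := mul_le_mul_of_nonneg_left h13 hkp.le
  have h17 : k * (-(δ / (1 - δ))) ≤ k * Real.log (1 - δ) :=
    mul_le_mul_of_nonneg_left h11 hkp.le
  have h14 : -(L / 2) ≤ k * Real.log (1 - δ) := by linarith
  calc Real.exp (-(L / 2)) ≤ Real.exp (k * Real.log (1 - δ)) := Real.exp_le_exp.2 h14
    _ = (1 - δ) ^ k := by
      rw [mul_comm, Real.exp_mul, Real.exp_log (by linarith), Real.rpow_natCast]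

private lemma frac (k n i r L T δ : ℝ) (hkp : 0 < k) (hrp : 1000000 ≤ r) (hnr : n = r * k)
    (hδ0 : 0 ≤ δ) (hL : 0 ≤ L)
    (hc : (n - i) * Real.log 2 < T) (hT : T ≤ 0.2 * (L * r)) (hi : i ≤ n)
    (hδe : n - i = δ * (n - k)) : k * δ ≤ 0.3 * L := by
  have hl : 0.6931471803 < Real.log 2 := Real.log_two_gt_d9
  have h1 : (n - i) * 0.693 ≤ (n - i) * Real.log 2 :=
    mul_le_mul_of_nonneg_left (by linarith) (by linarith)
  have h4 : (n - i) ≤ 0.289 * (L * r) := by
    have : 0 ≤ L * r := mul_nonneg hL (by linarith)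
    linarith
  have h5 : δ * (n - k) ≤ 0.289 * (L * r) := by
    rw [← hδe]
    exact h4
  have h6 : 0.99 * (r * k) ≤ n - k := by
    rw [hnr]
    have : 1000000 * k ≤ r * k := mul_le_mul_of_nonneg_right hrp hkp.le
    linarith
  have h7 : δ * (0.99 * (r * k)) ≤ 0.289 * (L * r) :=
    (mul_le_mul_of_nonneg_left h6 hδ0).trans h5
  have h8 : r * (0.99 * (k * δ)) ≤ r * (0.289 * L) := by linarith
  have h9 := le_of_mul_le_mul_left h8 (by linarith)
  linarith

private lemma final (k n m r L Δ q : ℝ) (hkp : 0 < k) (hrp : 0 < r) (hnr : n = r * k)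
    (hLe : Real.exp L = k * (1 + Δ)) (hΔ1 : 1 ≤ Δ) (hq : Real.exp (-(L / 2)) ≤ q)
    (hpm : m = Δ * n * q) : r / 2 * (L / 2 + 1) ≤ m := by
  have h18 : Real.exp L ≤ 2 * k * Δ := by
    rw [hLe]
    have : k * 1 ≤ k * Δ := mul_le_mul_of_nonneg_left hΔ1 hkp.le
    linarith
  have h19 : Real.exp (L / 2) * Real.exp (-(L / 2)) = 1 := by
    rw [← Real.exp_add]
    simp
  have h20 : Real.exp L = Real.exp (L / 2) * Real.exp (L / 2) := by
    rw [← Real.exp_add]
    congr 1
    ring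
  have h21 : L / 2 + 1 ≤ Real.exp (L / 2) := Real.add_one_le_exp _
  have h22 : Real.exp (L / 2) ≤ 2 * k * Δ * Real.exp (-(L / 2)) := by
    have h23 := mul_le_mul_of_nonneg_right h18 (Real.exp_pos (-(L / 2))).le
    rw [h20, mul_assoc, h19, mul_one] at h23
    exact h23
  have h24 : r / 2 * Real.exp (L / 2) ≤ Δ * n * Real.exp (-(L / 2)) := by
    have h25 := mul_le_mul_of_nonneg_left h22 (show (0 : ℝ) ≤ r / 2 by linarith)
    have h26 : r / 2 * (2 * k * Δ * Real.exp (-(L / 2))) = Δ * n * Real.exp (-(L / 2)) := by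
      rw [hnr]
      ring
    linarith
  have hn : 0 ≤ Δ * n := by
    rw [hnr]
    positivity
  have h27 : Δ * n * Real.exp (-(L / 2)) ≤ m := by
    rw [hpm]
    exact mul_le_mul_of_nonneg_left hq hn
  have h28 : r / 2 * (L / 2 + 1) ≤ r / 2 * Real.exp (L / 2) :=
    mul_le_mul_of_nonneg_left h21 (by linarith)
  linarith

private lemma params (k n m : ℕ) (hk0 : (1000000 : ℝ) ≤ k) (hn0 : (1000000 : ℝ) * k ≤ n)
    (hm1 : 2 ^ k * n ≤ m) (hm2 : m ≤ 4 ^ k * n) :
    ∃ Δ L r T : ℝ, L = lg n k m ∧ (m : ℝ) = Δ * (2 ^ k * n) ∧ 1 ≤ Δ ∧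
      Real.exp L = k * (1 + Δ) ∧ 1 ≤ L ∧ L ≤ 0.7 * k ∧ (n : ℝ) = r * k ∧ 1000000 ≤ r ∧
      T = Real.log 2 * (L / 4 * r) + Real.log (128 * (n : ℝ) ^ 2) ∧ 0 ≤ T ∧
      T ≤ 0.2 * (L * r) := by
  have hkp : (0 : ℝ) < k := by linarith
  have hnp : (0 : ℝ) < n := by linarith
  have h2k : (0 : ℝ) < 2 ^ k := by positivity
  obtain ⟨Δ, hΔ⟩ : ∃ Δ : ℝ, Δ = m / (2 ^ k * n) := ⟨_, rfl⟩
  have hm : (m : ℝ) = Δ * (2 ^ k * n) := by
    rw [hΔ, div_mul_cancel₀]
    positivity
  have hΔ1 : 1 ≤ Δ := by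
    rw [hΔ, le_div_iff₀ (by positivity), one_mul]
    exact_mod_cast hm1
  have hΔ2 : Δ ≤ 2 ^ k := by
    rw [hΔ, div_le_iff₀ (by positivity)]
    have h1 : (m : ℝ) ≤ 4 ^ k * n := by exact_mod_cast hm2
    have h2 : (4 : ℝ) ^ k = 2 ^ k * 2 ^ k := by
      rw [← mul_pow]
      norm_num
    rw [h2] at h1
    linarith
  obtain ⟨L, hL⟩ : ∃ L : ℝ, L = lg n k m := ⟨_, rfl⟩
  have hLe : Real.exp L = k * (1 + Δ) := by
    rw [hL, lg, ← hΔ, Real.exp_log (by positivity)]
  have hL1 : L = Real.log k + Real.log (1 + Δ) := by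
    rw [hL, lg, ← hΔ, Real.log_mul (by positivity) (by positivity)]
  have hlogk : Real.log k ≤ k / 500 := log_le_sqrt hk0
  have hlogk1 : 1 ≤ Real.log k := by
    rw [Real.le_log_iff_exp_le hkp]
    have := Real.exp_one_lt_d9
    linarith
  have hlogD : 0 ≤ Real.log (1 + Δ) := Real.log_nonneg (by linarith)
  have hl2 : Real.log 2 < 0.6931471808 := Real.log_two_lt_d9
  have hl2' : 0.6931471803 < Real.log 2 := Real.log_two_gt_d9
  have hlogD2 : Real.log (1 + Δ) ≤ (k + 1) * Real.log 2 := by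
    have h1 : 1 + Δ ≤ 2 ^ (k + 1) := by
      rw [pow_succ]
      have : (1 : ℝ) ≤ 2 ^ k := one_le_pow₀ (by norm_num)
      linarith
    have h2 := Real.log_le_log (by linarith) h1
    rw [Real.log_pow] at h2
    push_cast at h2
    exact h2
  have hLk : L ≤ 0.7 * k := by
    rw [hL1]
    have : (k + 1) * Real.log 2 ≤ (k + 1) * 0.6931471808 :=
      mul_le_mul_of_nonneg_left hl2.le (by linarith)
    linarith
  have hL0 : 1 ≤ L := by linarith
  obtain ⟨r, hr⟩ : ∃ r : ℝ, r = n / k := ⟨_, rfl⟩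
  have hnr : (n : ℝ) = r * k := by
    rw [hr, div_mul_cancel₀ _ hkp.ne']
  have hr0 : 1000000 ≤ r := by
    rw [hr, le_div_iff₀ hkp]
    linarith
  have hrp : 0 < r := by linarith
  have hlogr : Real.log r ≤ r / 500 := log_le_sqrt hr0
  have hLr : r ≤ L * r := by
    have := mul_le_mul_of_nonneg_right hL0 hrp.le
    linarith
  have hLr2 : 1000000 * L ≤ L * r := by
    have := mul_le_mul_of_nonneg_left hr0 (show 0 ≤ L by linarith)
    linarith
  have hlog128 : Real.log (128 * (n : ℝ) ^ 2) ≤ 0.02 * (L * r) := by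
    rw [Real.log_mul (by norm_num) (by positivity), Real.log_pow, hnr,
      Real.log_mul (by positivity) (by positivity)]
    have h1 : Real.log 128 ≤ 5 := by
      have : (128 : ℝ) = 2 ^ 7 := by norm_num
      rw [this, Real.log_pow]
      push_cast
      linarith
    push_cast
    linarith
  have hlog0 : 0 ≤ Real.log (128 * (n : ℝ) ^ 2) := by
    apply Real.log_nonneg
    have : (1 : ℝ) ≤ (n : ℝ) ^ 2 := one_le_pow₀ (by linarith)
    linarith
  refine ⟨Δ, L, r, _, hL, hm, hΔ1, hLe, hL0, hLk, hnr, hr0, rfl, by positivity, ?_⟩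
  have h1 : Real.log 2 * (L / 4 * r) ≤ 0.7 * (L / 4 * r) :=
    mul_le_mul_of_nonneg_right (by linarith) (by positivity)
  linarith

theorem pf_NUP : T_NUP := by
  refine ⟨10 ^ 6, by norm_num, ?_⟩
  intro k n m i hk hn hm1 hm2 hi
  have hk0 : (1000000 : ℝ) ≤ k := by
    have : ((10 ^ 6 : ℕ) : ℝ) ≤ k := by exact_mod_cast hk
    push_cast at this
    linarith
  have hn0 : (1000000 : ℝ) * k ≤ n := by
    have : ((10 ^ 6 * k : ℕ) : ℝ) ≤ n := by exact_mod_cast hn
    push_cast at this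
    linarith
  have hkp : (0 : ℝ) < k := by linarith
  have hnp : (0 : ℝ) < n := by linarith
  obtain ⟨Δ, L, r, T, hL, hm, hΔ1, hLe, hL0, hLk, hnr, hr0, hT, hT0, hTle⟩ :=
    params k n m hk0 hn0 hm1 hm2
  have hrp : 0 < r := by linarith
  have hl2 : Real.log 2 < 0.6931471808 := Real.log_two_lt_d9
  have hl2' : 0.6931471803 < Real.log 2 := Real.log_two_gt_d9
  have hRHS : (2 : ℝ) ^ ((1 - lg n k m / (4 * k)) * n) / (128 * n ^ 2) =
      Real.exp (n * Real.log 2 - T) := by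
    have h1 : (0 : ℝ) < 128 * (n : ℝ) ^ 2 := by positivity
    have h2 : Real.log 2 * ((1 - L / (4 * k)) * n) =
        n * Real.log 2 - Real.log 2 * (L / 4 * r) := by
      have h3 : L / (4 * k) * n = L / 4 * r := by
        rw [hnr]
        field_simp
      rw [one_sub_mul, h3]
      ring
    have h4 : n * Real.log 2 - T =
        (n * Real.log 2 - Real.log 2 * (L / 4 * r)) - Real.log (128 * (n : ℝ) ^ 2) := by
      rw [hT]
      ring
    rw [← hL, Real.rpow_def_of_pos (by norm_num), h2, h4,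
      Real.exp_sub _ (Real.log (128 * (n : ℝ) ^ 2)), Real.exp_log h1]
  rw [hRHS]
  have h2i : (2 : ℝ) ^ i = Real.exp (i * Real.log 2) := by
    rw [mul_comm, ← Real.rpow_def_of_pos (by norm_num), Real.rpow_natCast]
  have hLrn : L * r ≤ 0.7 * n := by
    rw [hnr]
    have := mul_le_mul_of_nonneg_right hLk hrp.le
    linarith
  constructor
  · intro hki
    have hki' : (k : ℝ) ≤ i := by exact_mod_cast hki
    have hin : (i : ℝ) ≤ n := by exact_mod_cast hi
    have hnk : (0 : ℝ) < n - k := by linarith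
    obtain ⟨p, hp⟩ : ∃ p : ℝ, p = (((i : ℝ) - k) / (2 * (n - k))) ^ k := ⟨_, rfl⟩
    rw [← hp]
    have hq0 : 0 ≤ ((i : ℝ) - k) / (2 * (n - k)) := div_nonneg (by linarith) (by linarith)
    have hq1 : ((i : ℝ) - k) / (2 * (n - k)) ≤ 1 := by
      rw [div_le_one (by linarith)]
      linarith
    have hp0 : 0 ≤ p := by
      rw [hp]
      exact pow_nonneg hq0 k
    have hp1 : p ≤ 1 := by
      rw [hp]
      exact pow_le_one₀ hq0 hq1
    have hpm0 : 0 ≤ p * m := mul_nonneg hp0 (Nat.cast_nonneg m)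
    have h1 : (1 - p) ^ m ≤ Real.exp (-(p * m)) := by
      have h3 : (1 - p) ≤ Real.exp (-p) := by
        have := Real.add_one_le_exp (-p)
        linarith
      calc (1 - p) ^ m ≤ Real.exp (-p) ^ m := pow_le_pow_left₀ (by linarith) h3 m
        _ = Real.exp (-(p * m)) := by
          rw [← Real.exp_nat_mul]
          congr 1
          ring
    have h2 : T ≤ (n - i) * Real.log 2 + p * m := by
      by_cases hc : T ≤ (n - i) * Real.log 2
      · linarith
      rw [not_le] at hc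
      obtain ⟨δ, hδ⟩ : ∃ δ : ℝ, δ = (n - i) / (n - k) := ⟨_, rfl⟩
      have hδe : ((n : ℝ) - i) = δ * (n - k) := by
        rw [hδ, div_mul_cancel₀ _ hnk.ne']
      have hδ0 : 0 ≤ δ := by
        rw [hδ]
        exact div_nonneg (by linarith) hnk.le
      have hδ1 : k * δ ≤ 0.3 * L :=
        frac k n i r L T δ hkp hr0 hnr hδ0 (by linarith) hc hTle hin hδe
      have hq : ((i : ℝ) - k) / (2 * (n - k)) = (1 - δ) / 2 := by
        have h3 : ((i : ℝ) - k) = (1 - δ) * (n - k) := by linarith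
        rw [h3, mul_comm (2 : ℝ), mul_comm (1 - δ), mul_div_mul_left _ _ hnk.ne']
      have hpm : p * m = Δ * n * (1 - δ) ^ k := by
        rw [hp, hq, div_pow, hm]
        have : (2 : ℝ) ^ k ≠ 0 := by positivity
        field_simp
      have h10 := powlow k δ L hkp hδ0 (by linarith) hδ1 hLk
      have h11 := final k n (p * m) r L Δ _ hkp hrp hnr hLe hΔ1 h10 hpm
      have h29 : 0 ≤ (n - i) * Real.log 2 := mul_nonneg (by linarith) (by linarith)
      linarith
    calc (2 : ℝ) ^ i * (1 - p) ^ m ≤ Real.exp (i * Real.log 2) * Real.exp (-(p * m)) := by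
          rw [h2i]
          exact mul_le_mul_of_nonneg_left h1 (Real.exp_pos _).le
      _ = Real.exp (i * Real.log 2 + -(p * m)) := by rw [← Real.exp_add]
      _ ≤ Real.exp (n * Real.log 2 - T) := Real.exp_le_exp.2 (by linarith)
  · intro hik
    have hik' : (i : ℝ) ≤ k := by exact_mod_cast hik.le
    rw [h2i]
    apply Real.exp_le_exp.2
    have h1 : (i : ℝ) * Real.log 2 ≤ k * Real.log 2 :=
      mul_le_mul_of_nonneg_right hik' (by linarith)
    have h3 : (k : ℝ) * Real.log 2 ≤ k * 0.7 :=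
      mul_le_mul_of_nonneg_left (by linarith) (by linarith)
    have h4 : (n : ℝ) * 0.693 ≤ n * Real.log 2 :=
      mul_le_mul_of_nonneg_left (by linarith) (by linarith)
    linarith

end Pool.Agent.H6.SSM
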